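import Pool.Agent.Results.MP_464c42_nt.FewBases
import Pool.Agent.X134.Win.NearC

/-!
# Campana points with few bases do not come near generic directions

Let `X` be the hyperplane `∑ u i * X i = 0` of `P ^ (n - 1)` with its `n` coordinate hyperplanes `D i`, and
`Δ = ∑ (1 - 1 / R) D i`. Its Campana points over `ℤ_S` are the primitive vectors `a` with `∑ u i * a i = 0` all of whose
coordinates are `R`-full outside `S`; the direction of `a` is `a / max |a i|`, a real point of `X`. Let `n` and `N` be given.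

1. For every `ε > 0` there are `R` and `δ > 0` such that for every `η > 0` and all `x ∈ ℝ^n` outside a set of Hausdorff
dimension at most `ε / η`: for every finite set `S`, all large `Y` and ALL nonzero integers `u i` with `|u i| ≤ Y ^ δ`, the
directions of all Campana points without vanishing partial sum, with coordinates of size at most `exp (Y ^ δ)` which are
products of powers of `N` pairwise coprime integers `≤ Y`, have a distance larger than `Y ^ (-η)` from `x`.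

2. For all `x` outside a set of dimension zero this holds for every `η > 0`, with `R` and `δ` depending on `x` and `η`.
-/

set_option autoImplicit false

open Filter Topology
open scoped ENNReal

namespace Pool.Agent.Results.MP_464c42_nt.CampanaNearDirections

/-- a primitive integer vector `a` with `∑ u i * a i = 0`, without vanishing proper nonempty partial sum, with
`|a i| ≤ exp (Y ^ δ)`, whose coordinates are, up to sign, products of powers of `N` pairwise coprime positive integers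
`≤ Y`, where the exponents of those of the `N` integers which are not in `S` are zero or at least `R` -/
def Campana {n : ℕ} (N R : ℕ) (Y δ : ℝ) (S : Finset ℕ) (u a : Fin n → ℤ) : Prop :=
  Finset.univ.gcd a = 1 ∧ ∑ i, u i * a i = 0 ∧
    (∀ K : Finset (Fin n), K.Nonempty → K ≠ Finset.univ → ∑ i ∈ K, u i * a i ≠ 0) ∧
    (∀ i, ((|a i| : ℤ) : ℝ) ≤ Real.exp (Y ^ δ)) ∧
    ∃ (x : Fin N → ℕ) (e : Fin n → Fin N → ℕ), (∀ j, 1 ≤ x j ∧ (x j : ℝ) ≤ Y) ∧
      (∀ j k, j ≠ k → Nat.Coprime (x j) (x k)) ∧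
      (∀ i j, x j ∉ S → e i j = 0 ∨ R ≤ e i j) ∧ ∀ i, (a i).natAbs = ∏ j, x j ^ e i j

/-- the direction of an integral vector: the vector divided by the largest absolute value of its coordinates -/
noncomputable def direction {n : ℕ} (w : Fin n → ℤ) : Fin n → ℝ :=
  fun i => (w i : ℝ) / ‖(fun j => (w j : ℝ))‖

/-- for every finite set `S`, all large `Y` and all nonzero integers `|u i| ≤ Y ^ δ` the direction of every Campana point
has a distance larger than `Y ^ (-η)` from `x` -/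
def Far {n : ℕ} (N R : ℕ) (δ η : ℝ) (x : Fin n → ℝ) : Prop :=
  ∀ S : Finset ℕ, ∃ Y₀ : ℝ, ∀ Y : ℝ, Y₀ ≤ Y → ∀ u : Fin n → ℤ, (∀ i, u i ≠ 0 ∧ ((|u i| : ℤ) : ℝ) ≤ Y ^ δ) →
    ∀ a : Fin n → ℤ, Campana N R Y δ S u a → Y ^ (-η) < dist (direction a) x

open Pool.Agent.X134.Win (two ht one_le_two near_family_eps exists_two rpow_le_two' ht_int zero_of_eps le_of_two_le)

lemma two_eq (n : ℕ) : (((2 ^ n : ℕ)) : ℝ) = two n := by
  unfold two
  push_cast
  rfl

lemma part1 (n N : ℕ) (ε : ℝ) (hε : 0 < ε) : ∃ (R : ℕ) (δ : ℝ), 0 < δ ∧ ∀ η : ℝ, 0 < η →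
    ∃ F : Set (Fin n → ℝ), dimH F ≤ ENNReal.ofReal (ε / η) ∧ ∀ x : Fin n → ℝ, x ∉ F → Far N R δ η x := by
  obtain ⟨ε', hε', he'⟩ : ∃ ε' : ℝ, 0 < ε' ∧ (2 * (n : ℝ) + 1) * ε' = ε :=
    ⟨ε / (2 * n + 1), by positivity, by field_simp⟩
  obtain ⟨R, δ, hδ, hres⟩ := FewBases.result n N ε' hε'
  refine ⟨R, min δ ε', lt_min hδ hε', fun η hη => ?_⟩
  choose C hC using hres
  obtain ⟨F, hF1, hF2⟩ := near_family_eps (X := Fin n → ℝ) (ι := Finset ℕ) (T := fun _ => Fin n → ℤ)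
    (fun _ => direction) n hε' hη
    (fun S k q => {w | ∃ u : Fin n → ℤ, (∀ i, (u i : ℚ) = q i) ∧
      (∀ i, u i ≠ 0 ∧ ((|u i| : ℤ) : ℝ) ≤ Real.exp (((2 ^ k : ℕ) : ℝ) ^ δ)) ∧
      w ∈ FewBases.CampanaPoints n N R (2 ^ k) δ S u}) (fun S => ⟨|C S|, fun k q => by
      by_cases hq : ∃ u : Fin n → ℤ, (∀ i, (u i : ℚ) = q i) ∧
          (∀ i, u i ≠ 0 ∧ ((|u i| : ℤ) : ℝ) ≤ Real.exp (((2 ^ k : ℕ) : ℝ) ^ δ))
      · obtain ⟨u, hu1, hu2⟩ := hq
        obtain ⟨h1, h2⟩ := hC S (2 ^ k) u Nat.one_le_two_pow hu2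
        have hsub : {w | ∃ u : Fin n → ℤ, (∀ i, (u i : ℚ) = q i) ∧
            (∀ i, u i ≠ 0 ∧ ((|u i| : ℤ) : ℝ) ≤ Real.exp (((2 ^ k : ℕ) : ℝ) ^ δ)) ∧
            w ∈ FewBases.CampanaPoints n N R (2 ^ k) δ S u} ⊆ FewBases.CampanaPoints n N R (2 ^ k) δ S u := by
          rintro w ⟨u', hu', -, hw⟩
          have : u' = u := by
            funext i
            have h3 := (hu' i).trans (hu1 i).symm
            exact_mod_cast h3
          rwa [this] at hw
        refine ⟨h1.subset hsub, ?_⟩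
        refine (Nat.cast_le.2 (Set.ncard_le_ncard hsub h1)).trans (h2.trans ?_)
        rw [two_eq]
        exact mul_le_mul_of_nonneg_right (le_abs_self _)
          (Real.rpow_nonneg (zero_le_one.trans (one_le_two k)) _)
      · have hemp : {w | ∃ u : Fin n → ℤ, (∀ i, (u i : ℚ) = q i) ∧
            (∀ i, u i ≠ 0 ∧ ((|u i| : ℤ) : ℝ) ≤ Real.exp (((2 ^ k : ℕ) : ℝ) ^ δ)) ∧
            w ∈ FewBases.CampanaPoints n N R (2 ^ k) δ S u} = ∅ := by
          ext w
          simp only [Set.mem_ofPred_eq, Set.mem_empty_iff_false, iff_false]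
          rintro ⟨u, h1, h2, -⟩
          exact hq ⟨u, h1, h2⟩
        rw [hemp]
        refine ⟨Set.finite_empty, ?_⟩
        rw [Set.ncard_empty, Nat.cast_zero]
        exact mul_nonneg (abs_nonneg _) (Real.rpow_nonneg (zero_le_one.trans (one_le_two k)) _)⟩)
  rw [he'] at hF1
  refine ⟨F, hF1, fun x hx S => ?_⟩
  obtain ⟨k₀, hk₀⟩ := hF2 x hx S
  refine ⟨max 1 (two k₀), fun Y hY u hu a ha => ?_⟩
  obtain ⟨ha1, ha2, ha3, ha4, y, e, hy1, hy2, hy3, hy4⟩ := ha
  have hY1 : 1 ≤ Y := le_trans (le_max_left _ _) hY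
  have hYp : 0 < Y := by linarith
  obtain ⟨k, hk1, hk2⟩ := exists_two Y hY1
  have hkk : k₀ ≤ k := le_of_two_le (le_trans (le_max_right _ _) hY) hk1
  have hδ0 : 0 ≤ min δ ε' := (lt_min hδ hε').le
  have hb1 : Y ^ min δ ε' ≤ two k ^ ε' :=
    (Real.rpow_le_rpow hYp.le hk1 hδ0).trans (Real.rpow_le_rpow_of_exponent_le (one_le_two k) (min_le_right _ _))
  have hb2 : Y ^ min δ ε' ≤ ((2 ^ k : ℕ) : ℝ) ^ δ := by
    rw [two_eq]
    exact (Real.rpow_le_rpow hYp.le hk1 hδ0).trans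
      (Real.rpow_le_rpow_of_exponent_le (one_le_two k) (min_le_left _ _))
  have hexp : Real.exp (Y ^ min δ ε') ≤ Real.exp (((2 ^ k : ℕ) : ℝ) ^ δ) := Real.exp_le_exp.2 hb2
  have hself : ∀ t : ℝ, t ≤ Real.exp t := fun t => by linarith [Real.add_one_le_exp t]
  have hmem : a ∈ FewBases.CampanaPoints n N R (2 ^ k) δ S u := by
    refine ⟨ha1, ha2, ha3, fun i => (ha4 i).trans hexp, y, e, fun j => ⟨(hy1 j).1, ?_⟩, hy2, hy3, hy4⟩
    have h1 : ((y j : ℕ) : ℝ) ≤ ((2 ^ k : ℕ) : ℝ) := by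
      rw [two_eq]
      exact (hy1 j).2.trans hk1
    exact_mod_cast h1
  refine lt_of_le_of_lt (rpow_le_two' k hY1 hη.le hk2) ?_
  exact hk₀ k hkk (fun i => (u i : ℚ)) (fun i => by
    rw [ht_int _ (hu i).1]
    refine le_trans (le_of_eq ?_) ((hu i).2.trans hb1)
    rw [Nat.cast_natAbs]) a
    ⟨u, fun i => rfl, fun i => ⟨(hu i).1, ((hu i).2.trans (hself _)).trans hexp⟩, hmem⟩

/-- **Theorem.** Let `n` and `N` be given.

1. For every `ε > 0` there are `R` and `δ > 0` such that for every `η > 0` there is a set `F ⊂ ℝ^n` of Hausdorff dimension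
at most `ε / η` such that `Far N R δ η x` for all `x ∉ F`.

2. There is a set `F ⊂ ℝ^n` of Hausdorff dimension zero such that for every `x ∉ F` and `η > 0` there are `R` and `δ > 0`
such that `Far N R δ η x`. -/
theorem result (n N : ℕ) :
    (∀ ε : ℝ, 0 < ε → ∃ (R : ℕ) (δ : ℝ), 0 < δ ∧ ∀ η : ℝ, 0 < η →
      ∃ F : Set (Fin n → ℝ), dimH F ≤ ENNReal.ofReal (ε / η) ∧ ∀ x : Fin n → ℝ, x ∉ F → Far N R δ η x) ∧
    (∃ F : Set (Fin n → ℝ), dimH F = 0 ∧ ∀ x : Fin n → ℝ, x ∉ F → ∀ η : ℝ, 0 < η → ∃ (R : ℕ) (δ : ℝ), 0 < δ ∧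
      Far N R δ η x) := by
  refine ⟨part1 n N, ?_⟩
  choose R δ hδ h using fun m : ℕ => part1 n N (1 / ((m : ℝ) + 1)) (by positivity)
  obtain ⟨F, hF1, hF2⟩ := zero_of_eps (fun m η (x : Fin n → ℝ) => Far N (R m) (δ m) η x)
    (fun m η η' x _ hηη h S => by
      obtain ⟨Y₀, hY₀⟩ := h S
      exact ⟨max 1 Y₀, fun Y hY u hu a ha =>
        lt_of_le_of_lt (Real.rpow_le_rpow_of_exponent_le ((le_max_left _ _).trans hY) (by linarith))
          (hY₀ Y ((le_max_right _ _).trans hY) u hu a ha)⟩) h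
  refine ⟨F, hF1, fun x hx η hη => ?_⟩
  obtain ⟨m, hm⟩ := hF2 x hx η hη
  exact ⟨R m, δ m, hδ m, hm⟩

end Pool.Agent.Results.MP_464c42_nt.CampanaNearDirections
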