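import Pool.Agent.X123.MT.Targets
import Pool.Agent.Results.MP_464c42_nt.OrbifoldLines

/-!
# Integral points of C-pairs of general type on the line near almost every target

`K` is a number field, `S` a finite set of primes of `K` and
`Δ = (1 - 1 / m_0) (0) + (1 - 1 / m_1) (1) + (1 - 1 / m_2) (∞)` on the projective line, with
`m_i ∈ {1, 2, …} ∪ {∞}` and `σ = 1 / m_0 + 1 / m_1 + 1 / m_2 < 1`. Every point of `K ⊗ ℝ`, or of a
completion of `K`, is approximated by infinitely many `x ∈ K` with proximity `2 h(x) - O(1)`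
(Dirichlet). We show that the `S`-integral points of this C-pair approximate almost no point, and no
tuple of points of several completions outside a set of small Hausdorff dimension, as well.
-/

set_option autoImplicit false

namespace Pool.Agent.Results.MP_464c42_nt.CampanaPointsAndTargets

open NumberField IsDedekindDomain MeasureTheory
open Pool.Agent.X123.MT (AlmostAllTargets)

/-- the absolute logarithmic Weil height `h(x)` -/
noncomputable def height {K : Type} [Field K] [NumberField K] (x : K) : ℝ :=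
  (1 / (Module.finrank ℚ K : ℝ)) *
    ((∑ w : InfinitePlace K, (w.mult : ℝ) * Real.log (max 1 (w x))) +
      ∑ᶠ v : HeightOneSpectrum (RingOfIntegers K), Real.log (max 1 (FinitePlace.mk v x)))

/-- the real number `1 / m`, with `1 / ∞ = 0` -/
noncomputable def recip (m : ℕ∞) : ℝ := ((m.toNat : ℕ) : ℝ)⁻¹

/-- `x ≠ 0, 1` is an `S`-integral point of the C-pair with the orders `m_0, m_1, m_2` at
`0, 1, ∞`: for every prime `v` outside `S` each of the numbers `z = x, x - 1, x⁻¹` which has a
positive valuation at `v` has valuation at least `m_0`, `m_1`, `m_2` respectively (and no positive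
valuation if this order is `∞`). -/
def IsIntegral {K : Type} [Field K] [NumberField K] (S : Finset (HeightOneSpectrum (𝓞 K)))
    (m : Fin 3 → ℕ∞) (x : K) : Prop :=
  x ≠ 0 ∧ x ≠ 1 ∧ ∀ v : HeightOneSpectrum (𝓞 K), v ∉ S → ∀ i : Fin 3,
    v.valuation K (![x, x - 1, x⁻¹] i) < 1 →
      ∃ n : ℕ, m i ≤ n ∧ v.valuation K (![x, x - 1, x⁻¹] i) = WithZero.exp (-(n : ℤ))

/-- the exponent `min (4 σ / 7, 20 / 37)` -/
noncomputable def expo (m : Fin 3 → ℕ∞) : ℝ := min (4 * (∑ i, recip (m i)) / 7) (20 / 37)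

open Classical in
/-- the proximity of `x` to the point `y` of `K ⊗ ℝ = ℝ ^ (r₁) × ℂ ^ (r₂)` at all archimedean places:
`1 / [K : ℚ]` times the sum of the `[K_v : ℝ] log⁺ (1 / |y_v - x|_v)` -/
noncomputable def lamInf {K : Type} [Field K] [NumberField K] (y : mixedEmbedding.mixedSpace K)
    (x : K) : ℝ :=
  (∑ w, max 0 (Real.log (1 / |y.1 w - (mixedEmbedding K x).1 w|)) +
    ∑ w, 2 * max 0 (Real.log (1 / ‖y.2 w - (mixedEmbedding K x).2 w‖))) /
      (Module.finrank ℚ K : ℝ)

/-- For all `ε > 0` there is `C` with `Λ(x) ≤ (e + ε) h(x) + C` for all integral points `x`. -/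
def Holds {K : Type} [Field K] [NumberField K] (S : Finset (HeightOneSpectrum (𝓞 K)))
    (m : Fin 3 → ℕ∞) (Λ : K → ℝ) : Prop :=
  ∀ ε : ℝ, 0 < ε → ∃ C : ℝ, ∀ x : K, IsIntegral S m x → Λ x ≤ (expo m + ε) * height x + C

theorem height_nonneg {K : Type} [Field K] [NumberField K] (x : K) : 0 ≤ height x := by
  unfold height
  refine mul_nonneg (by positivity) (add_nonneg (Finset.sum_nonneg fun w _ => ?_)
    (finsum_nonneg fun v => ?_))
  · exact mul_nonneg (Nat.cast_nonneg _) (Real.log_nonneg (le_max_left _ _))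
  · exact Real.log_nonneg (le_max_left _ _)

theorem expo_nonneg (m : Fin 3 → ℕ∞) : 0 ≤ expo m := by
  unfold expo
  refine le_min ?_ (by norm_num)
  have : 0 ≤ ∑ i, recip (m i) := Finset.sum_nonneg fun i _ => by unfold recip; positivity
  positivity

open Pool.Agent.X123.MT in
theorem cnt {K : Type} [Field K] [NumberField K] (S : Finset (HeightOneSpectrum (𝓞 K)))
    (m : Fin 3 → ℕ∞) (hm : ∀ i, 1 ≤ m i) (hσ : ∑ i, recip (m i) < 1) :
    Cnt {x : K | IsIntegral S m x} height ((Module.finrank ℚ K : ℝ) * expo m) := by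
  intro δ hδ
  obtain ⟨C, hC⟩ := Pool.Agent.Results.MP_464c42_nt.OrbifoldLines.result K S m hm hσ δ hδ
  refine ⟨C, fun t ht => ?_⟩
  obtain ⟨h1, h2⟩ := hC (Real.exp t) (Real.one_le_exp ht)
  have hsub : {x | x ∈ {x : K | IsIntegral S m x} ∧ height x ≤ t} ⊆
      Pool.Agent.Results.MP_464c42_nt.OrbifoldLines.points K S m (Real.exp t) := by
    rintro x ⟨hx, hxt⟩
    exact ⟨hx, Real.exp_le_exp.2 hxt⟩
  refine ⟨h1.subset hsub, le_trans (Nat.cast_le.2 (Set.ncard_le_ncard hsub h1))
    (h2.trans (le_of_eq ?_))⟩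
  rw [← Real.exp_mul, mul_comm t]
  rfl

open Pool.Agent.X123.MT in
theorem holds_of_generic {K : Type} [Field K] [NumberField K]
    (S : Finset (HeightOneSpectrum (𝓞 K))) (m : Fin 3 → ℕ∞) (hm : ∀ i, 1 ≤ m i)
    (hσ : ∑ i, recip (m i) < 1) (Y : Type) [MeasurableSpace Y] (μ : Measure Y) (L : K → Y → ℝ)
    (hL : Generic μ L) :
    ∀ᵐ y ∂μ, Holds S m (fun x => L x y / (Module.finrank ℚ K : ℝ)) := by
  have hd : (0 : ℝ) < (Module.finrank ℚ K : ℝ) := by exact_mod_cast Module.finrank_pos
  have h1 := hL _ _ _ (fun x _ => height_nonneg x) (mul_nonneg hd.le (expo_nonneg m))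
    (cnt S m hm hσ)
  filter_upwards [h1] with y hy ε hε
  obtain ⟨C, hC⟩ := hy ((Module.finrank ℚ K : ℝ) * ε) (by positivity)
  refine ⟨C / (Module.finrank ℚ K : ℝ), fun x hx => ?_⟩
  rw [div_le_iff₀ hd]
  refine (hC x hx).trans (le_of_eq ?_)
  field_simp

open Classical in
/-- **Integral points of C-pairs of general type on the line near almost every target.** Let `K` be a
number field of degree `d`, `S` a finite set of primes of `K`, `m_0, m_1, m_2 ∈ {1, 2, …} ∪ {∞}` with
`σ = 1 / m_0 + 1 / m_1 + 1 / m_2 < 1` and `e = min (4 σ / 7, 20 / 37)`.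

(1) For almost all `y ∈ K ⊗ ℝ` and all `ε > 0` there is `C` such that all `S`-integral points `x` of the
C-pair satisfy `λ_∞(y, x) ≤ (e + ε) h(x) + C`.

(2) For almost all targets in finitely many metric spaces, for instance completions of `K` (see
`AlmostAllTargets`) the same holds, with the proximity function divided by `d`.

(3) For every map `s` of `K` to a metric space and every `τ > 0` the set of the `z` with
`|z - s(x)| ≤ exp (- τ h(x))` for infinitely many integral points `x` has Hausdorff dimension at most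
`d e / τ`. -/
theorem result (K : Type) [Field K] [NumberField K] (S : Finset (HeightOneSpectrum (𝓞 K)))
    (m : Fin 3 → ℕ∞) (hm : ∀ i, 1 ≤ m i) (hσ : ∑ i, recip (m i) < 1) :
    (∀ᵐ y : mixedEmbedding.mixedSpace K, Holds S m (fun x => lamInf y x)) ∧
    AlmostAllTargets (fun Λ : K → ℝ => Holds S m (fun x => Λ x / (Module.finrank ℚ K : ℝ))) ∧
    ∀ (X : Type) [MetricSpace X] (s : K → X) (τ : ℝ), 0 < τ →
      dimH {z : X | {x : K | IsIntegral S m x ∧
        dist z (s x) ≤ Real.exp (-(τ * height x))}.Infinite} ≤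
          ENNReal.ofReal ((Module.finrank ℚ K : ℝ) * expo m / τ) := by
  have := Pool.Agent.X123.MT.countable_K K
  have hd : (0 : ℝ) < (Module.finrank ℚ K : ℝ) := by exact_mod_cast Module.finrank_pos
  refine ⟨?_, ?_, fun X _ s τ hτ => ?_⟩
  · exact holds_of_generic S m hm hσ _ _ _ (Pool.Agent.X123.MT.generic_mixed K)
  · exact Pool.Agent.X123.MT.almostAllTargets_of _ (fun Y _ μ L hL =>
      holds_of_generic S m hm hσ Y μ L hL)
  · exact Pool.Agent.X123.MT.dim_le _ _ (fun x _ => height_nonneg x)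
      (mul_nonneg hd.le (expo_nonneg m)) hτ (cnt S m hm hσ) s

end Pool.Agent.Results.MP_464c42_nt.CampanaPointsAndTargets
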