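import Pool.Agent.Results.MP_464c42_nt.AlmostAllHypersurfacePairs
import Pool.Agent.X174.WinRat

/-!
# `C`-pairs on projective space: no integral points of small height on ALL pairs with coefficients in cubes around thin
sequences of points

Let `d ≥ 2 n + 3` and `M` the number of the monomials of degree `d` in `n + 1` variables. For suitable `κ < 1`, `θ` and `φ` there
is `η > 0` such that for every sequence `v ≥ 1` of exponent of convergence at most `τ` (for `v_i = (i + 1) ^ a` this is `1 / a`,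
for `v_i = b ^ i` it is `0`) and every `ρ < 1` there is ONE set `E ⊂ ℝ^M` of Hausdorff dimension at most
`(M - η + τ) / (1 - ρ)` such that for each `x` outside `E`, for all but finitely many `i`: for ALL forms `F` of degree `d` in
`n + 1` variables with integer coefficients in the cube with centre `x v_i` and side `2 v_i ^ ρ`, NO `C`-pair
`(Pⁿ, ∑ (1 - 1/m_l) D_l)` with `∑ D_l = div F` and `m_l ≥ 2` has an integral point of height at most `v_i ^ θ` (or in a given set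
`A_i` of at most `3 ^ (n + 1) v_i ^ φ` points of height at most `v_i ^ θ`), over `ℤ[1/S]` for any `S` with
`∏_{p ∈ S} p ≤ v_i ^ κ`.

The number of exceptional forms is from the starting result `AlmostAllHypersurfacePairs`.
-/

set_option autoImplicit false

open Finset Filter

namespace Pool.Agent.Results.MP_464c42_nt.FormsInCubes

open AlmostAllHypersurfacePairs (IsCPoint HasPoint Exceptional)

/-- the exponent of convergence of the sequence `v` is at most `τ` -/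
def ExpLe (v : ℕ → ℝ) (τ : ℝ) : Prop := ∀ t : ℝ, τ < t → Summable (fun n : ℕ => (v n) ^ (-t))

/-- the exponent vectors of the monomials of degree `d` in `n + 1` variables -/
abbrev Monomials (n d : ℕ) : Type := {e : Fin (n + 1) →₀ ℕ // e ∈ Finset.univ.finsuppAntidiag d}

theorem coeff_eq_zero {n d : ℕ} {F : MvPolynomial (Fin (n + 1)) ℤ} (hF : F.IsHomogeneous d) {e : Fin (n + 1) →₀ ℕ}
    (he : e ∉ (Finset.univ : Finset (Fin (n + 1))).finsuppAntidiag d) : F.coeff e = 0 := by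
  by_contra h
  apply he
  rw [Finset.mem_finsuppAntidiag]
  refine ⟨?_, Finset.subset_univ _⟩
  have h1 := hF h
  rw [← h1, Finsupp.weight_apply]
  simp [Finsupp.sum_fintype]

theorem hasPoint_mono {n : ℕ} {F : MvPolynomial (Fin (n + 1)) ℤ} {Q Q' : ℝ} {A A' : Set (Fin (n + 1) → ℤ)}
    (hQ : Q ≤ Q') (hA : A ⊆ A') (h : HasPoint F Q A) : HasPoint F Q' A' := by
  obtain ⟨S, r, G, m, h1, h2, h3, h4, x, h5, h6⟩ := h
  exact ⟨S, r, G, m, h1, h2.trans hQ, h3, h4, x, hA h5, h6⟩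

/-- the passage to cubes, for exceptional sets which depend on the index -/
theorem core {n d : ℕ} {κ θ η C : ℝ} (hκ : 0 ≤ κ) (hη : 0 < η) {v : ℕ → ℝ} {τ ρ : ℝ} (hv : ∀ i, 1 ≤ v i) (hτ : 0 ≤ τ)
    (hE : ExpLe v τ) (hρ : ρ < 1) (A : ℕ → ℕ → Set (Fin (n + 1) → ℤ))
    (hA : ∀ R i : ℕ, 2 ≤ R → (Exceptional n d ⌊(R : ℝ) * v i⌋₊ (((⌊(R : ℝ) * v i⌋₊ : ℕ) : ℝ) ^ κ) (A R i)).Finite ∧
      ((Exceptional n d ⌊(R : ℝ) * v i⌋₊ (((⌊(R : ℝ) * v i⌋₊ : ℕ) : ℝ) ^ κ) (A R i)).ncard : ℝ) ≤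
        C * (((⌊(R : ℝ) * v i⌋₊ : ℕ) : ℝ)) ^ (((n + d).choose n : ℝ) - η)) :
    ∃ E : Set (Monomials n d → ℝ),
      dimH E ≤ ENNReal.ofReal ((((n + d).choose n : ℝ) - min η (1 / 2) + τ) / (1 - ρ)) ∧
      ∀ x : Monomials n d → ℝ, x ∉ E → ∃ R i₀ : ℕ, 2 ≤ R ∧ ∀ i : ℕ, i₀ ≤ i → ∀ F : MvPolynomial (Fin (n + 1)) ℤ,
        F.IsHomogeneous d → (∀ e : Monomials n d, |((F.coeff e.1 : ℤ) : ℝ) - x e * v i| ≤ (v i) ^ ρ) →
          ¬ HasPoint F ((v i) ^ κ) (A R i) := by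
  classical
  set η' : ℝ := min η (1 / 2) with hη'
  have hη0 : 0 < η' := lt_min hη (by norm_num)
  have hηη : η' ≤ η := min_le_left _ _
  have hηh : η' ≤ 1 / 2 := min_le_right _ _
  have hM1 : (1 : ℝ) ≤ (n + d).choose n := by
    exact_mod_cast Nat.choose_pos (Nat.le_add_right n d)
  have hs : (0 : ℝ) ≤ ((n + d).choose n : ℝ) - η' := by linarith
  have hvp : ∀ i, 0 < v i := fun i => lt_of_lt_of_le one_pos (hv i)
  have key : ∀ R : ℕ, ∃ E : Set (Monomials n d → ℝ),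
      dimH E ≤ ENNReal.ofReal ((((n + d).choose n : ℝ) - η' + τ) / (1 - ρ)) ∧
      (2 ≤ R → ∀ x : Monomials n d → ℝ, x ∉ E → ∃ i₀ : ℕ, ∀ i : ℕ, i₀ ≤ i →
        ∀ F ∈ Exceptional n d ⌊(R : ℝ) * v i⌋₊ (((⌊(R : ℝ) * v i⌋₊ : ℕ) : ℝ) ^ κ) (A R i),
          ¬ ∀ e : Monomials n d, |((F.coeff e.1 : ℤ) : ℝ) - x e * v i| ≤ (v i) ^ ρ) := by
    intro R
    by_cases hR : 2 ≤ R
    swap
    · exact ⟨∅, by simp, fun h => absurd h hR⟩
    have hR1 : (2 : ℝ) ≤ R := by exact_mod_cast hR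
    obtain ⟨E, hE1, hE2⟩ := Pool.Agent.X174.windowsVecV (κ := Monomials n d)
      (fun i => Exceptional n d ⌊(R : ℝ) * v i⌋₊ (((⌊(R : ℝ) * v i⌋₊ : ℕ) : ℝ) ^ κ) (A R i))
      (fun _ F e => ((F.coeff e.1 : ℤ) : ℝ)) hv hτ hE (s := ((n + d).choose n : ℝ) - η') hs hρ (by
        intro ε hε
        refine ⟨|C| * (R : ℝ) ^ (((n + d).choose n : ℝ) - η'), 0, fun i _ => ?_⟩
        obtain ⟨h1, h2⟩ := hA R i hR
        refine ⟨h1, h2.trans ?_⟩
        have hRv : 1 ≤ (R : ℝ) * v i := by nlinarith [hv i]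
        have hH1 : (1 : ℝ) ≤ ((⌊(R : ℝ) * v i⌋₊ : ℕ) : ℝ) := by
          exact_mod_cast Nat.le_floor (by exact_mod_cast hRv : ((1 : ℕ) : ℝ) ≤ (R : ℝ) * v i)
        have hHle : ((⌊(R : ℝ) * v i⌋₊ : ℕ) : ℝ) ≤ (R : ℝ) * v i := Nat.floor_le (by linarith)
        calc C * (((⌊(R : ℝ) * v i⌋₊ : ℕ) : ℝ)) ^ (((n + d).choose n : ℝ) - η)
            ≤ |C| * (((⌊(R : ℝ) * v i⌋₊ : ℕ) : ℝ)) ^ (((n + d).choose n : ℝ) - η) :=
              mul_le_mul_of_nonneg_right (le_abs_self C) (by positivity)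
          _ ≤ |C| * (((⌊(R : ℝ) * v i⌋₊ : ℕ) : ℝ)) ^ (((n + d).choose n : ℝ) - η') :=
              mul_le_mul_of_nonneg_left (Real.rpow_le_rpow_of_exponent_le hH1 (by linarith)) (abs_nonneg C)
          _ ≤ |C| * ((R : ℝ) * v i) ^ (((n + d).choose n : ℝ) - η') :=
              mul_le_mul_of_nonneg_left (Real.rpow_le_rpow (by linarith) hHle hs) (abs_nonneg C)
          _ = |C| * (R : ℝ) ^ (((n + d).choose n : ℝ) - η') * (v i) ^ (((n + d).choose n : ℝ) - η') := by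
              rw [Real.mul_rpow (by positivity) (hvp i).le]
              ring
          _ ≤ _ := mul_le_mul_of_nonneg_left
              (Real.rpow_le_rpow_of_exponent_le (hv i) (by linarith)) (by positivity))
    exact ⟨E, hE1, fun _ x hx => hE2 x hx⟩
  choose Es hEs1 hEs2 using key
  refine ⟨⋃ R, Es R, ?_, fun x hx => ?_⟩
  · rw [dimH_iUnion]
    exact iSup_le hEs1
  obtain ⟨R, hR, hRc⟩ := Pool.Agent.X174.le_of_cube x
  have hR2 : 2 ≤ R + 1 := by omega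
  obtain ⟨i₀, hi₀⟩ := hEs2 (R + 1) hR2 x (fun hm => hx (Set.mem_iUnion.2 ⟨_, hm⟩))
  refine ⟨R + 1, i₀, hR2, fun i hi F hF hcube hpt => ?_⟩
  have hRv : (R : ℝ) * v i + v i = (((R + 1 : ℕ) : ℝ)) * v i := by
    push_cast
    ring
  have hvle : v i ≤ ((⌊(((R + 1 : ℕ) : ℝ)) * v i⌋₊ : ℕ) : ℝ) := by
    have h1 := Nat.lt_floor_add_one ((((R + 1 : ℕ) : ℝ)) * v i)
    have h2 : (1 : ℝ) ≤ R := by exact_mod_cast hR
    rw [← hRv] at h1 ⊢
    nlinarith [hv i]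
  refine hi₀ i hi F ⟨hF, fun e => ?_, hasPoint_mono (Real.rpow_le_rpow (hvp i).le hvle hκ) subset_rfl hpt⟩ hcube
  by_cases he : e ∈ (Finset.univ : Finset (Fin (n + 1))).finsuppAntidiag d
  · have h3 := hRc (fun e : Monomials n d => ((F.coeff e.1 : ℤ) : ℝ)) (v i) ρ (hv i) hρ hcube ⟨e, he⟩
    have h4 : (((F.coeff e).natAbs : ℕ) : ℝ) ≤ (((R + 1 : ℕ) : ℝ)) * v i := by
      rw [Nat.cast_natAbs, Int.cast_abs, ← hRv]
      have := hvp i
      simp only at h3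
      linarith
    rw [Int.abs_eq_natAbs]
    exact_mod_cast Nat.le_floor h4
  · rw [coeff_eq_zero hF he, abs_zero]
    exact Nat.cast_nonneg _

/-- **Theorem.** Let `d ≥ 2 n + 3`, `0 ≤ κ < 1`, `2/3 < σ ≤ 1` and `1 ≤ θ σ`, and let `M` be the number of the monomials of degree
`d` in `n + 1` variables.
(1) If `(n + 1) θ + (1 + κ) (1 - σ / 2) + θ d σ / 2 < d + 1` there is `η > 0` such that for every sequence `v ≥ 1` of exponent of
convergence at most `τ ≥ 0` and every `ρ < 1` there is a set `E ⊂ ℝ^M` of Hausdorff dimension at most `(M - η + τ) / (1 - ρ)`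
such that for each `x` outside `E`, for all but finitely many `i`, no form `F` of degree `d` with integer coefficients with
`|F_e - x_e v_i| ≤ v_i ^ ρ` has a `C`-pair supported on it with a point with coordinates at most `v_i ^ θ` which is integral
outside a set `S` of primes with product at most `v_i ^ κ`.
(2) If `0 ≤ φ` and `φ + (1 + κ) (1 - σ / 2) + θ d σ / 2 < d + 1` the same holds for the points of arbitrary sets `A_i` of at most
`3 ^ (n + 1) v_i ^ φ` points with coordinates at most `v_i ^ θ`; `E` depends on the sets, `η` does not.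
The sequences `v_i = (i + 1) ^ a` and `v_i = b ^ i` have exponent of convergence at most `1 / a` and `0`. -/
theorem result :
    (∀ (n d : ℕ), 2 * n + 3 ≤ d → ∀ κ θ σ : ℝ, 0 ≤ κ → κ < 1 → 2 / 3 < σ → σ ≤ 1 → 1 ≤ θ * σ →
      ((n + 1) * θ + (1 + κ) * (1 - σ / 2) + θ * d * σ / 2 < d + 1 → ∃ η : ℝ, 0 < η ∧
        ∀ (v : ℕ → ℝ) (τ ρ : ℝ), (∀ i, 1 ≤ v i) → 0 ≤ τ → ExpLe v τ → ρ < 1 →
        ∃ E : Set (Monomials n d → ℝ),
          dimH E ≤ ENNReal.ofReal ((((n + d).choose n : ℝ) - η + τ) / (1 - ρ)) ∧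
          ∀ x : Monomials n d → ℝ, x ∉ E → ∃ i₀ : ℕ, ∀ i : ℕ, i₀ ≤ i → ∀ F : MvPolynomial (Fin (n + 1)) ℤ,
            F.IsHomogeneous d → (∀ e : Monomials n d, |((F.coeff e.1 : ℤ) : ℝ) - x e * v i| ≤ (v i) ^ ρ) →
              ¬ HasPoint F ((v i) ^ κ) {z | ∀ j, |(z j : ℝ)| ≤ (v i) ^ θ}) ∧
      ∀ φ : ℝ, 0 ≤ φ → φ + (1 + κ) * (1 - σ / 2) + θ * d * σ / 2 < d + 1 → ∃ η : ℝ, 0 < η ∧
        ∀ (v : ℕ → ℝ) (τ ρ : ℝ), (∀ i, 1 ≤ v i) → 0 ≤ τ → ExpLe v τ → ρ < 1 →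
        ∀ A : ℕ → Finset (Fin (n + 1) → ℤ), (∀ i, ((A i).card : ℝ) ≤ 3 ^ (n + 1) * (v i) ^ φ) →
          (∀ i, ∀ z ∈ A i, ∀ j, |(z j : ℝ)| ≤ (v i) ^ θ) →
        ∃ E : Set (Monomials n d → ℝ),
          dimH E ≤ ENNReal.ofReal ((((n + d).choose n : ℝ) - η + τ) / (1 - ρ)) ∧
          ∀ x : Monomials n d → ℝ, x ∉ E → ∃ i₀ : ℕ, ∀ i : ℕ, i₀ ≤ i → ∀ F : MvPolynomial (Fin (n + 1)) ℤ,
            F.IsHomogeneous d → (∀ e : Monomials n d, |((F.coeff e.1 : ℤ) : ℝ) - x e * v i| ≤ (v i) ^ ρ) →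
              ¬ HasPoint F ((v i) ^ κ) (A i)) ∧
    (∀ a : ℝ, 0 < a → ExpLe (fun n : ℕ => ((n : ℝ) + 1) ^ a) (1 / a)) ∧
    (∀ b : ℝ, 1 < b → ExpLe (fun n : ℕ => b ^ n) 0) := by
  refine ⟨?_, fun κ hκ => Pool.Agent.Y854.GM.expLe_pow κ hκ, fun b hb => Pool.Agent.Y854.GM.expLe_geom b hb⟩
  intro n d hd κ θ σ hκ0 hκ hσ0 hσ1 hθσ
  obtain ⟨hI, hII⟩ := AlmostAllHypersurfacePairs.result n d hd κ θ σ hκ0 hκ hσ0 hσ1 hθσ
  have hθ0 : 0 ≤ θ := by
    by_contra h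
    push Not at h
    nlinarith
  have hvH : ∀ (v : ℕ → ℝ), (∀ i, 1 ≤ v i) → ∀ R i : ℕ, 2 ≤ R → v i ≤ ((⌊(R : ℝ) * v i⌋₊ : ℕ) : ℝ) := by
    intro v hv R i hR
    have h1 := Nat.lt_floor_add_one ((R : ℝ) * v i)
    have h2 : (2 : ℝ) ≤ R := by exact_mod_cast hR
    nlinarith [hv i]
  have hH1 : ∀ (v : ℕ → ℝ), (∀ i, 1 ≤ v i) → ∀ R i : ℕ, 2 ≤ R → 1 ≤ ⌊(R : ℝ) * v i⌋₊ := by
    intro v hv R i hR
    have h1 := hvH v hv R i hR
    have h2 : (1 : ℝ) ≤ ((⌊(R : ℝ) * v i⌋₊ : ℕ) : ℝ) := (hv i).trans h1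
    exact_mod_cast h2
  refine ⟨fun hlt => ?_, fun φ hφ hlt => ?_⟩
  · obtain ⟨η, C, hη, h⟩ := hI hlt
    refine ⟨min η (1 / 2), lt_min hη (by norm_num), fun v τ ρ hv hτ hE hρ => ?_⟩
    obtain ⟨E, hE1, hE2⟩ := core (n := n) (d := d) (κ := κ) (θ := θ) (C := C) hκ0 hη hv hτ hE hρ
      (fun R i => {z | ∀ j, |(z j : ℝ)| ≤ (((⌊(R : ℝ) * v i⌋₊ : ℕ) : ℝ)) ^ θ})
      (fun R i hR => h _ (hH1 v hv R i hR))
    refine ⟨E, hE1, fun x hx => ?_⟩
    obtain ⟨R, i₀, hR, hi₀⟩ := hE2 x hx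
    refine ⟨i₀, fun i hi F hF hcube hpt => hi₀ i hi F hF hcube (hasPoint_mono le_rfl (fun z hz j => ?_) hpt)⟩
    exact (hz j).trans (Real.rpow_le_rpow (by linarith [hv i]) (hvH v hv R i hR) hθ0)
  · obtain ⟨η, C, hη, h⟩ := hII φ hlt
    refine ⟨min η (1 / 2), lt_min hη (by norm_num), fun v τ ρ hv hτ hE hρ A hA1 hA2 => ?_⟩
    obtain ⟨E, hE1, hE2⟩ := core (n := n) (d := d) (κ := κ) (θ := θ) (C := C) hκ0 hη hv hτ hE hρ
      (fun _ i => (A i : Set (Fin (n + 1) → ℤ)))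
      (fun R i hR => by
        have h1 := hvH v hv R i hR
        have hvi := hv i
        exact h _ (hH1 v hv R i hR) (A i)
          ((hA1 i).trans (mul_le_mul_of_nonneg_left (Real.rpow_le_rpow (by linarith) h1 hφ) (by positivity)))
          (fun z hz j => (hA2 i z hz j).trans (Real.rpow_le_rpow (by linarith) h1 hθ0)))
    refine ⟨E, hE1, fun x hx => ?_⟩
    obtain ⟨R, i₀, hR, hi₀⟩ := hE2 x hx
    exact ⟨i₀, hi₀⟩

end Pool.Agent.Results.MP_464c42_nt.FormsInCubes
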