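import Pool.Agent.X61.RI.Outer
import Pool.Agent.Y911.US.Prox

/-!
# Campana points on the line with respect to an infinite random set of primes

`K` is a number field of degree `d`, `D_1, …, D_q` are `q ≥ 3` distinct points of the projective
line over `K`, `S₀` is a finite set of primes and `T` an (infinite) random set of primes: the events
`v ∈ T` are independent, of probability at most `N(v) ^ (-τ)`, where `τ ≥ θ > 2/q`.

1. Almost surely the number of ALL points over `K` (of any height) for which the product of the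
   norms of the primes outside `S₀ ∪ T` at which they meet a `D_l` is at most `Z` is `O(Z ^ θ)`.
2. Almost surely, for all pairs `(ℙ¹, ∑ (1 - 1/m_l) D_l)`, the number of the Campana points with
   respect to `S = S₀ ∪ T` of absolute height at most `H` is `O(H ^ (d θ ∑ 1/m_l))`.

These are the bounds which are known for a finite set `S`.
-/

set_option autoImplicit false

namespace Pool.Agent.Results.MP_464c42_nt.RandomInfiniteS

open NumberField IsDedekindDomain MeasureTheory ProbabilityTheory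
open Pool.Agent.H691R3 Pool.Agent.TH876.Loc Pool.Agent.Y911.RR
open Pool.Agent.TH876.KR (form localHeight localHeight_nonneg localHeight_pos_iff m2)
open Pool.Agent.Y911.US (dvs dvs_inj offp ne_zero_of form_iff i2 i2_pos)

section Defs

variable {K : Type} [Field K] [NumberField K]

/-- the absolute logarithmic height (the height of Mathlib is relative to `K`) -/
noncomputable def height (x : Fin 2 → K) : ℝ :=
  Height.logHeight x / (Module.finrank ℚ K : ℝ)

/-- the local height at the prime `v` of `x` relative to the point `a`: the intersection number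
`n_v(a, x)` on the projective line over the integers of `K`, times `log N(v)` -/
noncomputable def lam (v : HeightOneSpectrum (𝓞 K)) (a x : Fin 2 → K) : ℝ :=
  Real.log (max (FinitePlace.mk v (a 0)) (FinitePlace.mk v (a 1)) *
    max (FinitePlace.mk v (x 0)) (FinitePlace.mk v (x 1)) /
      FinitePlace.mk v (a 0 * x 1 - a 1 * x 0))

/-- the product of the norms of the primes outside `U` at which `x` meets one of the points -/
noncomputable def cond (U : Set (HeightOneSpectrum (𝓞 K))) {q : ℕ} (α : Fin q → Fin 2 → K)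
    (x : Fin 2 → K) : ℝ :=
  ∏ᶠ (v : HeightOneSpectrum (𝓞 K)) (_ : v ∉ U ∧ ∃ l, 0 < lam v (α l) x),
    (Ideal.absNorm v.asIdeal : ℝ)

/-- `x` is a Campana point with respect to `U`: at the primes outside `U` it does not meet the
point `α l` or `log N(v) ≤ r l * n_v(α l, x) * log N(v)` (`r l = 1 / m l`, `0` for
`m l = ∞`) -/
def IsCampana (U : Set (HeightOneSpectrum (𝓞 K))) {q : ℕ} (r : Fin q → ℝ)
    (α : Fin q → Fin 2 → K) (x : Fin 2 → K) : Prop :=
  ∀ v, v ∉ U → ∀ l, 0 < lam v (α l) x →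
    Real.log (Ideal.absNorm v.asIdeal : ℝ) ≤ r l * lam v (α l) x

/-- the points off the `α l` with `cond ≤ Z` -/
def pointsBelow (U : Set (HeightOneSpectrum (𝓞 K))) {q : ℕ} (α : Fin q → Fin 2 → K) (Z : ℝ) :
    Set (Projectivization K (Fin 2 → K)) :=
  {P | ∃ (x : Fin 2 → K) (hx : x ≠ 0), P = Projectivization.mk K x hx ∧
    (∀ l, x 0 * α l 1 - x 1 * α l 0 ≠ 0) ∧ cond U α x ≤ Z}

/-- the Campana points off the `α l` of height at most `log H` -/
def campanaPoints (U : Set (HeightOneSpectrum (𝓞 K))) {q : ℕ} (r : Fin q → ℝ)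
    (α : Fin q → Fin 2 → K) (H : ℝ) : Set (Projectivization K (Fin 2 → K)) :=
  {P | ∃ (x : Fin 2 → K) (hx : x ≠ 0), P = Projectivization.mk K x hx ∧
    (∀ l, x 0 * α l 1 - x 1 * α l 0 ≠ 0) ∧ IsCampana U r α x ∧ height x ≤ Real.log H}

end Defs

variable {K : Type} [Field K] [NumberField K] {q : ℕ}

theorem mem_sp {α : Fin q → Fin 2 → K} (h : ∀ l, α l ≠ 0) {x : Fin 2 → K} (hx : x ≠ 0)
    (hf : ∀ i, form (α i) x ≠ 0) (v : Pr K) :
    v ∈ spA (dvs α h) (offp h hx hf) ↔ ∃ l, 0 < lam v (α l) x := by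
  rw [mem_spA]
  refine exists_congr fun l => ?_
  rw [meet_comm]
  exact (meet_mk v (h l) hx).trans (localHeight_pos_iff v (hf l)).symm

theorem cond_eq {α : Fin q → Fin 2 → K} (h : ∀ l, α l ≠ 0) {x : Fin 2 → K} (hx : x ≠ 0)
    (hf : ∀ i, form (α i) x ≠ 0) (S₀ : Finset (Pr K)) {Ω : Type} (E : Pr K → Set Ω) (ω : Ω) :
    cond ((S₀ : Set (Pr K)) ∪ {v | ω ∈ E v}) α x =
      nn (Pool.Agent.X61.RI.outP S₀ E ω (spA (dvs α h) (offp h hx hf))) := by
  classical
  unfold cond nn
  rw [← finprod_mem_coe_finset]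
  refine finprod_mem_congr (s := {v | v ∉ (S₀ : Set (Pr K)) ∪ {v | ω ∈ E v} ∧
    ∃ l, 0 < lam v (α l) x}) ?_ fun v _ => rfl
  ext v
  unfold Pool.Agent.X61.RI.outP
  rw [Finset.mem_coe, Finset.mem_filter, mem_sp]
  show (¬ (v ∈ S₀ ∨ ω ∈ E v) ∧ _) ↔ _
  tauto

/-- the sum of the local heights at finitely many primes -/
theorem sum_lam {a x : Fin 2 → K} (ha : a ≠ 0) (hx : x ≠ 0) (hf : form a x ≠ 0)
    (V : Finset (Pr K)) : ∑ v ∈ V, lam v a x ≤ Height.logHeight x + Height.logHeight a +
      ∑ w : InfinitePlace K, (w.mult : ℝ) * Real.log 2 := by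
  classical
  have h1 := Pool.Agent.Y911.US.fmt_one ha hx hf
  have hfin : (Function.support fun v : Pr K => localHeight v a x).Finite := by
    have h2 := (Pool.Agent.Y911.US.supp_m2 hx).union (Pool.Agent.Y911.US.supp_m2 ha)
    refine (h2.union (Pool.Agent.Y911.US.supp_fv hf)).subset fun v hv => ?_
    by_contra hcon
    rw [Set.mem_union, Set.mem_union, not_or, not_or] at hcon
    apply hv
    have k1 : Real.log (m2 v x) = 0 := by
      by_contra h; exact hcon.1.1 h
    have k2 : Real.log (m2 v a) = 0 := by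
      by_contra h; exact hcon.1.2 h
    have k3 : Real.log (fv v (form a x)) = 0 := by
      by_contra h; exact hcon.2 h
    show localHeight v a x = 0
    rw [Pool.Agent.TH876.KR.localHeight_eq, Real.log_div
      (mul_pos (Pool.Agent.Y911.US.m2_pos' v ha) (Pool.Agent.Y911.US.m2_pos' v hx)).ne'
      ((fv v).pos hf).ne', Real.log_mul (Pool.Agent.Y911.US.m2_pos' v ha).ne'
      (Pool.Agent.Y911.US.m2_pos' v hx).ne', k1, k2, k3]
    ring
  have h2 : ∑ v ∈ V, lam v a x ≤ ∑ᶠ v : Pr K, localHeight v a x := by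
    rw [finsum_eq_sum_of_support_subset (s := hfin.toFinset ∪ V) _ (by
      intro v hv
      rw [Finset.coe_union, Set.Finite.coe_toFinset]
      exact Or.inl hv)]
    exact Finset.sum_le_sum_of_subset_of_nonneg Finset.subset_union_right
      fun v _ _ => localHeight_nonneg v hf
  have h3 : -(∑ w : InfinitePlace K, (w.mult : ℝ) * Real.log 2) ≤
      ∑ w : InfinitePlace K, (w.mult : ℝ) * Real.log (i2 w a * i2 w x / w (form a x)) := by
    rw [← Finset.sum_neg_distrib]
    refine Finset.sum_le_sum fun w _ => ?_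
    rw [← mul_neg]
    refine mul_le_mul_of_nonneg_left ?_ (Nat.cast_nonneg _)
    rw [← Real.log_inv]
    have hpos : 0 < w (form a x) := InfinitePlace.pos_iff.2 hf
    have hi := i2_pos w ha
    have hi' := i2_pos w hx
    refine Real.log_le_log (by norm_num) ?_
    rw [le_div_iff₀ hpos]
    have k1 : w (form a x) ≤ w (a 0) * w (x 1) + w (a 1) * w (x 0) := by
      unfold form
      calc w (a 0 * x 1 - a 1 * x 0) ≤ w (a 0 * x 1) + w (a 1 * x 0) := by
            have := w.1.add_le (a 0 * x 1) (-(a 1 * x 0))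
            rw [← sub_eq_add_neg] at this
            refine this.trans (le_of_eq ?_)
            rw [w.1.map_neg]
            rfl
        _ = _ := by rw [map_mul, map_mul]
    have k2 : w (a 0) * w (x 1) ≤ i2 w a * i2 w x :=
      mul_le_mul (le_max_left _ _) (le_max_right _ _) (apply_nonneg w _) hi.le
    have k3 : w (a 1) * w (x 0) ≤ i2 w a * i2 w x :=
      mul_le_mul (le_max_right _ _) (le_max_left _ _) (apply_nonneg w _) hi.le
    linarith
  linarith

/-- the outer conductor of a Campana point -/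
theorem campana_cond {α : Fin q → Fin 2 → K} (h : ∀ l, α l ≠ 0) {x : Fin 2 → K} (hx : x ≠ 0)
    (hf : ∀ i, form (α i) x ≠ 0) (S₀ : Finset (Pr K)) {Ω : Type} (E : Pr K → Set Ω) (ω : Ω)
    {r : Fin q → ℝ} (hr : ∀ l, 0 ≤ r l)
    (hC : IsCampana ((S₀ : Set (Pr K)) ∪ {v | ω ∈ E v}) r α x) :
    Real.log (cond ((S₀ : Set (Pr K)) ∪ {v | ω ∈ E v}) α x) ≤
      (∑ l, r l) * Height.logHeight x + ∑ l, r l * (Height.logHeight (α l) +
        ∑ w : InfinitePlace K, (w.mult : ℝ) * Real.log 2) := by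
  classical
  rw [cond_eq h hx hf]
  set V := Pool.Agent.X61.RI.outP S₀ E ω (spA (dvs α h) (offp h hx hf)) with hV
  have h1 : Real.log (nn V) = ∑ v ∈ V, Real.log (Nv v) := by
    unfold nn
    exact Real.log_prod fun v _ => (Nv_pos v).ne'
  rw [h1]
  have h2 : ∀ v ∈ V, Real.log (Nv v) ≤ ∑ l, r l * lam v (α l) x := by
    intro v hv
    rw [hV, Pool.Agent.X61.RI.outP, Finset.mem_filter, mem_sp] at hv
    obtain ⟨⟨l, hl⟩, hv1, hv2⟩ := hv
    have hU : v ∉ (S₀ : Set (Pr K)) ∪ {v | ω ∈ E v} := by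
      rintro (h' | h')
      · exact hv1 h'
      · exact hv2 h'
    refine (hC v hU l hl).trans ?_
    exact Finset.single_le_sum (f := fun l => r l * lam v (α l) x)
      (fun l _ => mul_nonneg (hr l) (localHeight_nonneg v (hf l))) (Finset.mem_univ l)
  refine (Finset.sum_le_sum h2).trans ?_
  rw [Finset.sum_comm]
  have h3 : ∀ l ∈ (Finset.univ : Finset (Fin q)), ∑ v ∈ V, r l * lam v (α l) x ≤
      r l * Height.logHeight x + r l * (Height.logHeight (α l) +
        ∑ w : InfinitePlace K, (w.mult : ℝ) * Real.log 2) := by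
    intro l _
    rw [← Finset.mul_sum, ← mul_add]
    refine mul_le_mul_of_nonneg_left ?_ (hr l)
    have := sum_lam (h l) hx (hf l) V
    linarith
  refine (Finset.sum_le_sum h3).trans (le_of_eq ?_)
  rw [Finset.sum_add_distrib, Finset.sum_mul]

/-- **Campana points with respect to an infinite random set of primes.** Let `K` be a number field
of degree `d`, `S₀` a finite set of primes of `K`, and `α l` coordinates of `q ≥ 3` distinct points
`D_l` of the line over `K`. Let `2/q < θ ≤ τ` and let `T = {v | ω ∈ E v}` be a random set of primes,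
where the events `E v` are independent and of probability at most `N(v) ^ (-τ)`. Almost surely:

(1) there is `C` such that for all `Z ≥ 1` the number of the points over `K`, of all heights, for
which the product of the norms of the primes outside `S₀ ∪ T` at which they meet a `D_l` is at most
`Z`, is at most `C Z ^ θ`;

(2) for all `r l ≥ 0` (`r l = 1 / m l`) there is `C` such that for all `H ≥ 1` the number of the
Campana points of `(ℙ¹, ∑ (1 - r l) D_l)` with respect to `S₀ ∪ T` of absolute height at most `H` is at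
most `C H ^ (d θ ∑ r l)`. -/
theorem result (K : Type) [Field K] [NumberField K] (S₀ : Set (HeightOneSpectrum (𝓞 K)))
    (hS : S₀.Finite) (q : ℕ) (hq : 3 ≤ q) (α : Fin q → Fin 2 → K)
    (hα : ∀ i j, i ≠ j → α i 0 * α j 1 - α i 1 * α j 0 ≠ 0) (θ τ : ℝ) (hθ : 2 / (q : ℝ) < θ)
    (hθτ : θ ≤ τ) (Ω : Type) [MeasurableSpace Ω] (μ : Measure Ω)
    (E : HeightOneSpectrum (𝓞 K) → Set Ω) (hm : ∀ v, MeasurableSet (E v)) (hi : iIndepSet E μ)
    (hE : ∀ v, μ (E v) ≤ ENNReal.ofReal ((Ideal.absNorm v.asIdeal : ℝ) ^ (-τ))) :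
    ∀ᵐ ω ∂μ,
      (∃ C : ℝ, ∀ Z : ℝ, 1 ≤ Z → (pointsBelow (S₀ ∪ {v | ω ∈ E v}) α Z).Finite ∧
        ((pointsBelow (S₀ ∪ {v | ω ∈ E v}) α Z).ncard : ℝ) ≤ C * Z ^ θ) ∧
      ∀ r : Fin q → ℝ, (∀ l, 0 ≤ r l) → ∃ C : ℝ, ∀ H : ℝ, 1 ≤ H →
        (campanaPoints (S₀ ∪ {v | ω ∈ E v}) r α H).Finite ∧
        ((campanaPoints (S₀ ∪ {v | ω ∈ E v}) r α H).ncard : ℝ) ≤
          C * H ^ ((Module.finrank ℚ K : ℝ) * θ * ∑ l, r l) := by
  classical
  have h := ne_zero_of hq α hα
  have hA := dvs_inj h fun i j hij => hα i j hij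
  have hθ0 : 0 < θ := lt_of_le_of_lt (by positivity) hθ
  have hd : (0 : ℝ) < Module.finrank ℚ K := by
    exact_mod_cast (Module.finrank_pos (R := ℚ) (M := K))
  filter_upwards [Pool.Agent.X61.RI.outer_count hq (dvs α h) hA hS.toFinset hθ hθτ hi hm hE]
    with ω hω
  obtain ⟨C, hC0, hC⟩ := hω
  have hU : (hS.toFinset : Set (Pr K)) ∪ {v | ω ∈ E v} = S₀ ∪ {v | ω ∈ E v} := by
    rw [hS.coe_toFinset]
  have key : ∀ Z : ℝ, 1 ≤ Z → (pointsBelow (S₀ ∪ {v | ω ∈ E v}) α Z).Finite ∧
      ((pointsBelow (S₀ ∪ {v | ω ∈ E v}) α Z).ncard : ℝ) ≤ C * Z ^ θ := by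
    intro Z hZ
    obtain ⟨k1, k2⟩ := hC Z hZ
    have hsub : pointsBelow (S₀ ∪ {v | ω ∈ E v}) α Z ⊆ Subtype.val '' {P : Off (dvs α h) |
        nn (Pool.Agent.X61.RI.outP hS.toFinset E ω (spA (dvs α h) P)) ≤ Z} := by
      rintro P ⟨x, hx, rfl, hne, hc⟩
      have hf := (form_iff α x).1 hne
      refine ⟨offp h hx hf, ?_, rfl⟩
      rw [← hU, cond_eq h hx hf] at hc
      exact hc
    have hfin := k1.image (Subtype.val : Off (dvs α h) → _)
    refine ⟨hfin.subset hsub, le_trans ?_ k2⟩
    exact_mod_cast (Set.ncard_le_ncard hsub hfin).trans (Set.ncard_image_le k1)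
  refine ⟨⟨C, key⟩, fun r hr => ?_⟩
  set s : ℝ := ∑ l, r l with hs
  have hs0 : 0 ≤ s := Finset.sum_nonneg fun l _ => hr l
  set b : ℝ := ∑ l, r l * (Height.logHeight (α l) +
    ∑ w : InfinitePlace K, (w.mult : ℝ) * Real.log 2) with hb
  have hb0 : 0 ≤ b := by
    refine Finset.sum_nonneg fun l _ => mul_nonneg (hr l) (add_nonneg
      (Height.logHeight_nonneg _) (Finset.sum_nonneg fun w _ => ?_))
    exact mul_nonneg (Nat.cast_nonneg _) (Real.log_nonneg (by norm_num))
  refine ⟨C * Real.exp b ^ θ, fun H hH => ?_⟩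
  have hH0 : 0 < H := by linarith
  set Z : ℝ := Real.exp b * H ^ ((Module.finrank ℚ K : ℝ) * s) with hZdef
  have hZ1 : 1 ≤ Z := by
    have h1 : 1 ≤ Real.exp b := Real.one_le_exp hb0
    have h2 : 1 ≤ H ^ ((Module.finrank ℚ K : ℝ) * s) :=
      Real.one_le_rpow hH (mul_nonneg hd.le hs0)
    rw [hZdef]
    nlinarith
  obtain ⟨k1, k2⟩ := key Z hZ1
  have hsub : campanaPoints (S₀ ∪ {v | ω ∈ E v}) r α H ⊆
      pointsBelow (S₀ ∪ {v | ω ∈ E v}) α Z := by
    rintro P ⟨x, hx, e, hne, hcam, hht⟩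
    refine ⟨x, hx, e, hne, ?_⟩
    have hf := (form_iff α x).1 hne
    rw [← hU] at hcam ⊢
    have h1 := campana_cond h hx hf hS.toFinset E ω hr hcam
    have hpos : 0 < cond ((hS.toFinset : Set (Pr K)) ∪ {v | ω ∈ E v}) α x := by
      rw [cond_eq h hx hf]
      exact nn_pos _
    rw [← hs, ← hb] at h1
    have h2 : Height.logHeight x ≤ (Module.finrank ℚ K : ℝ) * Real.log H := by
      have : Height.logHeight x = (Module.finrank ℚ K : ℝ) * height x := by
        unfold height
        rw [mul_div_cancel₀ _ hd.ne']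
      rw [this]
      exact mul_le_mul_of_nonneg_left hht hd.le
    rw [← Real.log_le_log_iff hpos (by linarith), hZdef, Real.log_mul (Real.exp_pos _).ne'
      (by positivity), Real.log_exp, Real.log_rpow hH0]
    have h3 := mul_le_mul_of_nonneg_left h2 hs0
    linarith
  refine ⟨k1.subset hsub, ?_⟩
  have h4 : ((campanaPoints (S₀ ∪ {v | ω ∈ E v}) r α H).ncard : ℝ) ≤
      ((pointsBelow (S₀ ∪ {v | ω ∈ E v}) α Z).ncard : ℝ) := by
    exact_mod_cast Set.ncard_le_ncard hsub k1
  refine h4.trans (k2.trans (le_of_eq ?_))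
  rw [hZdef, Real.mul_rpow (Real.exp_pos _).le (by positivity), ← Real.rpow_mul hH0.le]
  ring_nf

end Pool.Agent.Results.MP_464c42_nt.RandomInfiniteS
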